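import Pool.Agent.Q6.Mono.Basic

/-!
# MP_6598fd_al: the rank property does not force the special linear group

For every finite field `F` with at least three elements and every `n ≥ 2`, the group of monomial
matrices over `F` has the rank property and does not contain `SL(n, F)`. So Q1 is false, under
both readings of the threshold.
-/

namespace Pool.Agent.Results.MP_6598fd_al.MonomialRankProperty

open Q6.Mono

universe u

theorem result (F : Type u) [Field F] [Fintype F] (hF : 3 ≤ Fintype.card F) (n : ℕ)
    (hn : 2 ≤ n) :
    ∃ G : Subgroup (Matrix.GeneralLinearGroup (Fin n) F), RankProperty G ∧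
      ¬ (Matrix.GeneralLinearGroup.det (n := Fin n) (R := F)).ker ≤ G :=
  ⟨monomial n F, rankProperty_monomial hF n, not_sl_le hn⟩

end Pool.Agent.Results.MP_6598fd_al.MonomialRankProperty
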